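import Pool.Agent.Q125.PV.Stm
import Mathlib

/-! Project PV, job BAS. -/

set_option autoImplicit false

namespace Pool.Agent.Q96.PV

open Pool.Agent.Q125.PV

theorem t_DEG : S_DEG := by
  intro V _ _ r _ hT N hK u
  by_contra hlt
  rw [not_le] at hlt
  have huS : u ∈ Finset.univ \ outN r u := by
    simp only [Finset.mem_sdiff, Finset.mem_univ, true_and, outN, Finset.mem_filter]
    exact hT.1 u
  have hcard : 1 < (Finset.univ \ outN r u).card := by
    have h1 := Finset.card_sdiff_add_card_inter (Finset.univ : Finset V) (outN r u)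
    rw [Finset.univ_inter] at h1
    have h2 := hK.1
    omega
  obtain ⟨v, hv, hvu⟩ := Finset.exists_mem_ne hcard u
  have hR := hK.2 (outN r u) (Finset.subset_univ _) hlt u huS v hv
  rcases Relation.ReflTransGen.cases_head hR with h | ⟨b, ⟨_, hb, hub⟩, _⟩
  · exact hvu h.symm
  · rw [Finset.mem_sdiff] at hb
    apply hb.2
    unfold outN
    simp only [Finset.mem_filter, Finset.mem_univ, true_and]
    exact hub

theorem t_STR : S_STR := by
  intro V _ _ r N H D hK hD
  refine ⟨?_, ?_⟩
  · have h1 := Finset.card_sdiff_add_card_inter (Finset.univ : Finset V) D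
    rw [Finset.univ_inter] at h1
    have h2 := hK.1
    omega
  · intro S _ hS
    have h1 : (D ∪ S).card < N := lt_of_le_of_lt (Finset.card_union_le _ _) (by omega)
    have h2 := hK.2 (D ∪ S) (Finset.subset_univ _) h1
    have e : (Finset.univ : Finset V) \ (D ∪ S) = (Finset.univ \ D) \ S := by
      ext a
      simp only [Finset.mem_sdiff, Finset.mem_univ, true_and, Finset.mem_union, not_or]
    rw [e] at h2
    exact h2

theorem rch_rev {V : Type} [DecidableEq V] (r : V → V → Prop) (U : Finset V) (u v : V)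
    (h : Rch r U u v) : Rch (rv r) U v u := by
  unfold Rch at *
  induction h with
  | refl => exact Relation.ReflTransGen.refl
  | tail _ h1 ih =>
    refine Relation.ReflTransGen.head ⟨h1.2.1, h1.1, h1.2.2⟩ ih

theorem tour_rev {V : Type} (r : V → V → Prop) (h : Tour r) : Tour (rv r) :=
  ⟨h.1, fun u v huv => h.2 v u huv.symm⟩

theorem ks_rev {V : Type} [DecidableEq V] (r : V → V → Prop) (k : ℕ) (U : Finset V) (h : KS r k U) :
    KS (rv r) k U :=
  ⟨h.1, fun S hS hc u hu v hv => rch_rev r _ _ _ (h.2 S hS hc v hv u hu)⟩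

theorem vtc_rev {V : Type} [DecidableEq V] {M : ℕ} (m : Fin M → ℕ) (P : Fin M → ℕ → V) (c : Fin M) :
    vtc m (revP m P) c = vtc m P c := by
  unfold vtc revP
  ext v
  simp only [Finset.mem_image, Finset.mem_range]
  constructor
  · rintro ⟨j, hj, rfl⟩
    exact ⟨m c - j, by omega, rfl⟩
  · rintro ⟨j, hj, rfl⟩
    exact ⟨m c - j, by omega, by rw [Nat.sub_sub_self (by omega)]⟩

theorem innc_rev {V : Type} [DecidableEq V] {M : ℕ} (m : Fin M → ℕ) (P : Fin M → ℕ → V) (c : Fin M) :
    innc m (revP m P) c = innc m P c := by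
  unfold innc revP
  ext v
  simp only [Finset.mem_image, Finset.mem_filter, Finset.mem_range]
  constructor
  · rintro ⟨j, hj, rfl⟩
    exact ⟨m c - j, by omega, rfl⟩
  · rintro ⟨j, hj, rfl⟩
    exact ⟨m c - j, by omega, by rw [Nat.sub_sub_self (by omega)]⟩

theorem isPS_rev {V : Type} (r : V → V → Prop) (U Z Z' : Finset V) {M : ℕ} (m : Fin M → ℕ)
    (P : Fin M → ℕ → V) (h : IsPS r U Z Z' m P) : IsPS (rv r) U Z' Z m (revP m P) := by
  refine ⟨?_, ?_, ?_, ?_, ?_⟩
  · intro c
    exact h.en c
  · intro c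
    change P c (m c - m c) ∈ Z
    rw [Nat.sub_self]
    exact h.st c
  · intro c j hj
    exact h.mem c _ (Nat.sub_le _ _)
  · intro c j hj
    change r (P c (m c - (j + 1))) (P c (m c - j))
    have h1 := h.arc c (m c - (j + 1)) (by omega)
    have e : m c - (j + 1) + 1 = m c - j := by omega
    rw [e] at h1
    exact h1
  · intro c c' j j' hj hj' he
    have h1 := h.inj c c' (m c - j) (m c' - j') (Nat.sub_le _ _) (Nat.sub_le _ _) he
    obtain ⟨h2, h3⟩ := h1
    subst h2
    exact ⟨rfl, by omega⟩

theorem minPS_rev {V : Type} (r : V → V → Prop) (U Z Z' : Finset V) {M : ℕ} (m : Fin M → ℕ)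
    (P : Fin M → ℕ → V) (h : MinPS r U Z Z' m P) : MinPS (rv r) U Z' Z m (revP m P) := by
  refine ⟨isPS_rev r U Z Z' m P h.1, ?_⟩
  intro m' P' h'
  exact h.2 m' (revP m' P') (isPS_rev (rv r) U Z' Z m' P' h')

theorem t_REV : S_REV := by
  intro V _ _ r
  refine ⟨tour_rev r, fun k U => ks_rev r k U, ?_⟩
  intro M m P
  refine ⟨?_, ?_, vtc_rev m P, innc_rev m P, ?_⟩
  · unfold vts
    exact Finset.biUnion_congr rfl (fun c _ => vtc_rev m P c)
  · unfold inn
    exact Finset.biUnion_congr rfl (fun c _ => innc_rev m P c)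
  · intro U Z Z'
    exact ⟨isPS_rev r U Z Z' m P, minPS_rev r U Z Z' m P⟩

/-- counting the arcs inside a set of vertices -/
theorem arcs_in {V : Type} [DecidableEq V] (r : V → V → Prop) [DecidableRel r] (hT : Tour r)
    (W : Finset V) : 2 * ∑ u ∈ W, (W.filter (fun v => r u v)).card = W.card * (W.card - 1) := by
  have h1 : ∀ u ∈ W, (W.filter (fun v => r u v)).card + (W.filter (fun v => r v u)).card = W.card - 1 := by
    intro u hu
    rw [← Finset.card_union_of_disjoint, ← Finset.card_erase_of_mem hu]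
    · congr 1
      ext v
      simp only [Finset.mem_union, Finset.mem_filter, Finset.mem_erase]
      constructor
      · rintro (⟨hv, h⟩ | ⟨hv, h⟩)
        · refine ⟨?_, hv⟩
          rintro rfl
          exact hT.1 _ h
        · refine ⟨?_, hv⟩
          rintro rfl
          exact hT.1 _ h
      · rintro ⟨hne, hv⟩
        by_cases h : r u v
        · left; exact ⟨hv, h⟩
        · right; exact ⟨hv, (hT.2 v u hne).mpr h⟩
    · rw [Finset.disjoint_left]
      intro v hv hv'
      rw [Finset.mem_filter] at hv hv'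
      have hne : u ≠ v := by
        rintro rfl
        exact hT.1 _ hv.2
      exact ((hT.2 u v hne).mp hv.2) hv'.2
  have h2 : ∑ u ∈ W, (W.filter (fun v => r u v)).card = ∑ u ∈ W, (W.filter (fun v => r v u)).card := by
    simp only [Finset.card_filter]
    exact Finset.sum_comm
  have h3 := Finset.sum_congr rfl h1
  rw [Finset.sum_add_distrib, ← h2, Finset.sum_const, smul_eq_mul] at h3
  omega

theorem t_CNT : S_CNT := by
  intro V _ _ r _ hT d
  set W := Finset.univ.filter (fun u => (outN r u).card ≤ d) with hW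
  have h1 := arcs_in r hT W
  have h2 : ∑ u ∈ W, (W.filter (fun v => r u v)).card ≤ ∑ u ∈ W, d := by
    apply Finset.sum_le_sum
    intro u hu
    rw [hW, Finset.mem_filter] at hu
    refine le_trans (Finset.card_le_card ?_) hu.2
    intro v hv
    rw [Finset.mem_filter] at hv
    unfold outN
    simp only [Finset.mem_filter, Finset.mem_univ, true_and]
    exact hv.2
  rw [Finset.sum_const, smul_eq_mul] at h2
  by_contra h
  rw [not_le] at h
  have h3 : W.card * (W.card - 1) ≤ W.card * (2 * d) := by
    calc W.card * (W.card - 1) = 2 * ∑ u ∈ W, (W.filter (fun v => r u v)).card := h1.symm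
      _ ≤ 2 * (W.card * d) := Nat.mul_le_mul_left 2 h2
      _ = W.card * (2 * d) := by ring
  have h4 := Nat.le_of_mul_le_mul_left h3 (by omega)
  omega

end Pool.Agent.Q96.PV
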