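import Pool.Agent.Q125.PV.Stm
import Mathlib

/-! Project PV, job CUT. -/

set_option autoImplicit false

namespace Pool.Agent.Q96.PV

open Pool.Agent.Q125.PV

/-- all of `Z` is used by the first vertices -/
theorem ps_start {V : Type} [DecidableEq V] {r : V → V → Prop} {U Z Z' : Finset V} {M : ℕ}
    {m : Fin M → ℕ} {P : Fin M → ℕ → V} (h : IsPS r U Z Z' m P) (hM : Z.card = M) :
    ∀ z ∈ Z, ∃ c, P c 0 = z := by
  have h1 : (Finset.univ : Finset (Fin M)).image (fun c => P c 0) = Z := by
    apply Finset.eq_of_subset_of_card_le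
    · intro v hv
      rw [Finset.mem_image] at hv
      obtain ⟨c, _, rfl⟩ := hv
      exact h.st c
    · rw [Finset.card_image_of_injective, Finset.card_univ, Fintype.card_fin, hM]
      intro c c' he
      exact (h.inj c c' 0 0 (Nat.zero_le _) (Nat.zero_le _) he).1
  intro z hz
  rw [← h1, Finset.mem_image] at hz
  obtain ⟨c, _, hc⟩ := hz
  exact ⟨c, hc⟩

/-- all of `Z'` is used by the last vertices -/
theorem ps_end {V : Type} [DecidableEq V] {r : V → V → Prop} {U Z Z' : Finset V} {M : ℕ}
    {m : Fin M → ℕ} {P : Fin M → ℕ → V} (h : IsPS r U Z Z' m P) (hM : Z'.card = M) :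
    ∀ z ∈ Z', ∃ c, P c (m c) = z := by
  have h1 : (Finset.univ : Finset (Fin M)).image (fun c => P c (m c)) = Z' := by
    apply Finset.eq_of_subset_of_card_le
    · intro v hv
      rw [Finset.mem_image] at hv
      obtain ⟨c, _, rfl⟩ := hv
      exact h.en c
    · rw [Finset.card_image_of_injective, Finset.card_univ, Fintype.card_fin, hM]
      intro c c' he
      exact (h.inj c c' (m c) (m c') le_rfl le_rfl he).1
  intro z hz
  rw [← h1, Finset.mem_image] at hz
  obtain ⟨c, _, hc⟩ := hz
  exact ⟨c, hc⟩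

theorem mem_vts {V : Type} [DecidableEq V] {M : ℕ} {m : Fin M → ℕ} {P : Fin M → ℕ → V} {v : V} :
    v ∈ vts m P ↔ ∃ c j, j ≤ m c ∧ P c j = v := by
  unfold vts vtc
  simp only [Finset.mem_biUnion, Finset.mem_univ, true_and, Finset.mem_image, Finset.mem_range]
  constructor
  · rintro ⟨c, j, hj, h⟩
    exact ⟨c, j, by omega, h⟩
  · rintro ⟨c, j, hj, h⟩
    exact ⟨c, j, by omega, h⟩

theorem t_CUT : S_CUT := by
  classical
  intro V _ _ r Z Z' M H m P O I _hT hZZ hM hM' hK hPS hPot u x huZ huZ' hx hux
  set C : Finset V := Finset.univ.filter (fun v => (v ∉ Z ∧ v ∉ Z' ∧ I v ≤ x ∧ x ≤ O v) ∨ (v ∈ Z ∧ x ≤ O v))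
    with hC
  have memC : ∀ v, v ∈ C ↔ (v ∉ Z ∧ v ∉ Z' ∧ I v ≤ x ∧ x ≤ O v) ∨ (v ∈ Z ∧ x ≤ O v) := by
    intro v
    rw [hC, Finset.mem_filter]
    simp
  -- the cut
  have h1 : H ≤ (C ∪ Z').card := by
    by_contra hlt
    rw [not_le] at hlt
    obtain ⟨z0, hz0, hz0O⟩ := hPot.zr
    have hz0' : z0 ∉ Z' := Finset.disjoint_left.mp hZZ hz0
    have hz0C : z0 ∉ C := by
      rw [memC]
      rintro (h | h)
      · exact h.1 hz0
      · have := h.2
        omega
    have huC : u ∉ C := by
      rw [memC]
      rintro (h | h)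
      · have := h.2.2.1
        omega
      · exact huZ h.1
    have hR := hK.2 (C ∪ Z') (Finset.subset_univ _) hlt z0 (by
      simp only [Finset.mem_sdiff, Finset.mem_univ, true_and, Finset.mem_union, not_or]
      exact ⟨hz0C, hz0'⟩) u (by
      simp only [Finset.mem_sdiff, Finset.mem_univ, true_and, Finset.mem_union, not_or]
      exact ⟨huC, huZ'⟩)
    have key : ∀ b, Rch r (Finset.univ \ (C ∪ Z')) z0 b → b ∉ Z' ∧ O b < x := by
      intro b hb
      unfold Rch at hb
      induction hb with
      | refl => exact ⟨hz0', by omega⟩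
      | @tail a b _ hab ih =>
        obtain ⟨ha1, ha2⟩ := ih
        obtain ⟨_, hbm, hrab⟩ := hab
        simp only [Finset.mem_sdiff, Finset.mem_univ, true_and, Finset.mem_union, not_or] at hbm
        obtain ⟨hbC, hbZ'⟩ := hbm
        refine ⟨hbZ', ?_⟩
        rw [memC] at hbC
        push Not at hbC
        by_cases hbZ : b ∈ Z
        · exact hbC.2 hbZ
        · have h2 := hPot.arc a b ha1 hbZ hrab
          exact hbC.1 hbZ hbZ' (by omega)
    have h2 := key u hR
    have h3 := hPot.le u huZ huZ'
    omega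
  -- vertices of the cut outside the paths
  have h2 : (C ∪ Z').card ≤ C.card + M := by
    have := Finset.card_union_le C Z'
    omega
  have h3 : C ⊆ (Finset.univ.filter (fun v => v ∉ vts m P ∧ O v = x)) ∪ (C ∩ vts m P) := by
    intro v hv
    rw [Finset.mem_union, Finset.mem_filter, Finset.mem_inter]
    by_cases hvP : v ∈ vts m P
    · right; exact ⟨hv, hvP⟩
    · left
      refine ⟨Finset.mem_univ _, hvP, ?_⟩
      have h4 := hPot.eq v hvP
      rw [memC] at hv
      rcases hv with h | h
      · have a1 := h.2.2.1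
        have a2 := h.2.2.2
        omega
      · exfalso
        obtain ⟨c, hc⟩ := ps_start hPS hM v h.1
        exact hvP (mem_vts.mpr ⟨c, 0, Nat.zero_le _, hc⟩)
  have h4 := (Finset.card_le_card h3).trans (Finset.card_union_le _ _)
  -- at most one vertex of the cut on each path
  have hstart : ∀ c j, j ≤ m c → 0 < j → P c j ∉ Z := by
    intro c j hj hj0 h
    obtain ⟨c', hc'⟩ := ps_start hPS hM _ h
    have := (hPS.inj c' c 0 j (Nat.zero_le _) hj hc').2
    omega
  have hend : ∀ c j, j < m c → P c j ∉ Z' := by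
    intro c j hj h
    obtain ⟨c', hc'⟩ := ps_end hPS hM' _ h
    obtain ⟨e1, e2⟩ := hPS.inj c' c (m c') j le_rfl hj.le hc'
    subst e1
    omega
  have hchain : ∀ c j d, j + d + 1 ≤ m c → O (P c j) < I (P c (j + d + 1)) := by
    intro c j d
    induction d with
    | zero =>
      intro hd
      have := hPot.use c j (by omega)
      simp only [Nat.add_zero]
      omega
    | succ d ih =>
      intro hd
      have a1 := ih (by omega)
      have a2 := hPot.use c (j + d + 1) (by omega)
      have a3 := hPot.le (P c (j + d + 1)) (hstart c _ (by omega) (by omega)) (hend c _ (by omega))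
      rw [show j + (d + 1) + 1 = j + d + 1 + 1 by ring]
      omega
  have hone : ∀ c j j', j < j' → j' ≤ m c → P c j ∈ C → P c j' ∈ C → False := by
    intro c j j' hjj hj' hj1 hj2
    obtain ⟨d, rfl⟩ : ∃ d, j' = j + d + 1 := ⟨j' - j - 1, by omega⟩
    have a1 := hchain c j d hj'
    have a2 : x ≤ O (P c j) := by
      rcases (memC _).mp hj1 with h | h
      · exact h.2.2.2
      · exact h.2
    have a3 : I (P c (j + d + 1)) ≤ x := by
      rcases (memC _).mp hj2 with h | h
      · exact h.2.2.1
      · exact absurd h.1 (hstart c _ hj' (by omega))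
    omega
  have h5 : (C ∩ vts m P).card ≤ M := by
    have hch : ∀ v ∈ C ∩ vts m P, ∃ c, ∃ j, j ≤ m c ∧ P c j = v := by
      intro v hv
      exact mem_vts.mp (Finset.mem_inter.mp hv).2
    obtain ⟨z1, hz1, _⟩ := hPot.zr
    obtain ⟨c0, _⟩ := ps_start hPS hM z1 hz1
    have : Nonempty (Fin M) := ⟨c0⟩
    choose! f hf using hch
    have h6 : (C ∩ vts m P).card ≤ (Finset.univ : Finset (Fin M)).card := by
      apply Finset.card_le_card_of_injOn f
      · intro v _
        exact Finset.mem_coe.mpr (Finset.mem_univ _)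
      · intro v hv v' hv' he
        rw [Finset.mem_coe] at hv hv'
        obtain ⟨j, hj, hjv⟩ := hf v hv
        obtain ⟨j', hj', hjv'⟩ := hf v' hv'
        have hvC := (Finset.mem_inter.mp hv).1
        have hvC' := (Finset.mem_inter.mp hv').1
        rw [← he] at hj' hjv'
        rcases lt_trichotomy j j' with h | h | h
        · exfalso
          refine hone (f v) j j' h hj' ?_ ?_
          · rw [hjv]; exact hvC
          · rw [hjv']; exact hvC'
        · subst h
          rw [← hjv, ← hjv']
        · exfalso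
          refine hone (f v) j' j h hj ?_ ?_
          · rw [hjv']; exact hvC'
          · rw [hjv]; exact hvC
    rw [Finset.card_univ, Fintype.card_fin] at h6
    exact h6
  have h7 : H ≤ (Finset.univ.filter (fun v => v ∉ vts m P ∧ O v = x)).card + 2 * M := by omega
  convert h7

end Pool.Agent.Q96.PV
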