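import Pool.Agent.Q96.PV.BAS

/-! Project PV, job FO. -/

set_option autoImplicit false

namespace Pool.Agent.Q96.PV

open Pool.Agent.Q125.PV

/-- a vertex of small out-degree inside a nonempty set -/
theorem exists_small {V : Type} [DecidableEq V] (r : V → V → Prop) [DecidableRel r] (hT : Tour r)
    (E : Finset V) (hE : E.Nonempty) : ∃ v ∈ E, 2 * (E.filter (fun u => r v u)).card ≤ E.card := by
  by_contra h
  push Not at h
  have h1 := arcs_in r hT E
  have h2 : ∑ u ∈ E, E.card < ∑ u ∈ E, 2 * (E.filter (fun v => r u v)).card :=
    Finset.sum_lt_sum_of_nonempty hE h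
  rw [← Finset.mul_sum, h1, Finset.sum_const, smul_eq_mul] at h2
  have h3 : E.card * (E.card - 1) ≤ E.card * E.card := Nat.mul_le_mul_left _ (by omega)
  omega

theorem fo_aux {V : Type} [DecidableEq V] (r : V → V → Prop) [DecidableRel r] (hT : Tour r) (n : ℕ) :
    ∀ E : Finset V, ∃ A : Finset V, A ⊆ E ∧ A.card ≤ n ∧
      (A.Nonempty → ∃ s ∈ A, ∀ a ∈ A, a ≠ s → r a s) ∧
      2 ^ n * (E.filter (fun v => ∀ a ∈ A, r a v)).card ≤ E.card := by
  induction n with
  | zero =>
    intro E
    refine ⟨∅, Finset.empty_subset _, by simp, by simp, ?_⟩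
    simp
  | succ n ih =>
    intro E
    rcases E.eq_empty_or_nonempty with rfl | hE
    · exact ⟨∅, Finset.empty_subset _, by simp, by simp, by simp⟩
    · obtain ⟨v, hv, hv2⟩ := exists_small r hT E hE
      obtain ⟨A, hA, hAc, hAs, hAf⟩ := ih (E.filter (fun u => r v u))
      refine ⟨insert v A, ?_, ?_, ?_, ?_⟩
      · intro a ha
        rw [Finset.mem_insert] at ha
        rcases ha with rfl | ha
        · exact hv
        · exact (Finset.mem_filter.mp (hA ha)).1
      · exact (Finset.card_insert_le _ _).trans (by omega)
      · intro _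
        rcases A.eq_empty_or_nonempty with rfl | hne
        · refine ⟨v, Finset.mem_insert_self _ _, ?_⟩
          intro a ha hav
          rw [Finset.mem_insert] at ha
          rcases ha with rfl | ha
          · exact absurd rfl hav
          · simp at ha
        · obtain ⟨s, hs, hs2⟩ := hAs hne
          refine ⟨s, Finset.mem_insert_of_mem hs, ?_⟩
          intro a ha has
          rw [Finset.mem_insert] at ha
          rcases ha with rfl | ha
          · exact (Finset.mem_filter.mp (hA hs)).2
          · exact hs2 a ha has
      · have e : E.filter (fun u => ∀ a ∈ insert v A, r a u) =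
            (E.filter (fun u => r v u)).filter (fun u => ∀ a ∈ A, r a u) := by
          ext u
          simp only [Finset.mem_filter, Finset.mem_insert, forall_eq_or_imp, and_assoc]
        rw [e, pow_succ]
        calc 2 ^ n * 2 * ((E.filter (fun u => r v u)).filter (fun u => ∀ a ∈ A, r a u)).card
            = 2 * (2 ^ n * ((E.filter (fun u => r v u)).filter (fun u => ∀ a ∈ A, r a u)).card) := by ring
          _ ≤ 2 * (E.filter (fun u => r v u)).card := Nat.mul_le_mul_left 2 hAf
          _ ≤ E.card := hv2

theorem t_FO : S_FO := by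
  intro V _ _ r _ hT R ℓ hR hℓ
  obtain ⟨v, hv, hmin⟩ := Finset.exists_min_image R (fun u => (R.filter (fun w => r u w)).card) hR
  obtain ⟨A, hA, hAc, hAs, hAf⟩ := fo_aux r hT (ℓ - 1) (R.filter (fun u => r v u))
  have hs : ∃ s ∈ insert v A, ∀ a ∈ insert v A, a ≠ s → r a s := by
    rcases A.eq_empty_or_nonempty with rfl | hne
    · refine ⟨v, Finset.mem_insert_self _ _, ?_⟩
      intro a ha hav
      rw [Finset.mem_insert] at ha
      rcases ha with rfl | ha
      · exact absurd rfl hav
      · simp at ha
    · obtain ⟨s, hs, hs2⟩ := hAs hne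
      refine ⟨s, Finset.mem_insert_of_mem hs, ?_⟩
      intro a ha has
      rw [Finset.mem_insert] at ha
      rcases ha with rfl | ha
      · exact (Finset.mem_filter.mp (hA hs)).2
      · exact hs2 a ha has
  obtain ⟨s, hs1, hs2⟩ := hs
  refine ⟨insert v A, s, ?_, hs1, ?_, hs2, ?_⟩
  · intro a ha
    rw [Finset.mem_insert] at ha
    rcases ha with rfl | ha
    · exact hv
    · exact (Finset.mem_filter.mp (hA ha)).1
  · exact (Finset.card_insert_le _ _).trans (by omega)
  · intro u hu
    have e : R.filter (fun u => ∀ a ∈ insert v A, r a u) =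
        (R.filter (fun u => r v u)).filter (fun u => ∀ a ∈ A, r a u) := by
      ext u
      simp only [Finset.mem_filter, Finset.mem_insert, forall_eq_or_imp, and_assoc]
    have h1 : (R.filter (fun w => r u w)).card ≤ (outN r u).card := by
      apply Finset.card_le_card
      intro w hw
      rw [Finset.mem_filter] at hw
      unfold outN
      simp only [Finset.mem_filter, Finset.mem_univ, true_and]
      exact hw.2
    have h2 := Nat.le_trans hAf (Nat.le_trans (hmin u hu) h1)
    rw [e]
    convert h2

end Pool.Agent.Q96.PV
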