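import Pool.Agent.Q125.PV.Stm
import Mathlib

/-! Project PV, job ORB. -/

set_option autoImplicit false

namespace Pool.Agent.Q96.PV

open Pool.Agent.Q125.PV

theorem t_ORB : S_ORB := by
  classical
  intro V _ _ r Z Z' M σ hZZ hM hσ
  have hcard : Fintype.card (Fin M) = Fintype.card Z := by
    rw [Fintype.card_fin, Fintype.card_coe, hM]
  let e : Fin M ≃ Z := Fintype.equivOfCardEq hcard
  have hpre : ∀ z ∈ Z, σ.symm z ∈ Z' := by
    intro z hz
    have h := hσ (σ.symm z)
    rw [Equiv.apply_symm_apply] at h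
    rcases h with h | h
    · exact h.1
    · exact absurd hz h.2.1
  have hex : ∀ z ∈ Z, ∃ j : ℕ, σ^[j] z ∈ Z' := by
    intro z hz
    have hfin : 0 < orderOf σ := orderOf_pos σ
    refine ⟨orderOf σ - 1, ?_⟩
    have h1 : σ (σ^[orderOf σ - 1] z) = z := by
      rw [← Function.iterate_succ_apply' σ, Nat.succ_eq_add_one, Nat.sub_add_cancel hfin,
        Equiv.Perm.iterate_eq_pow, pow_orderOf_eq_one]
      rfl
    have h2 : σ^[orderOf σ - 1] z = σ.symm z := by
      rw [Equiv.eq_symm_apply]; exact h1
    rw [h2]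
    exact hpre z hz
  let z : Fin M → V := fun c => (e c : V)
  have hz : ∀ c, z c ∈ Z := fun c => (e c).2
  let m : Fin M → ℕ := fun c => Nat.find (hex (z c) (hz c))
  have hm1 : ∀ c, σ^[m c] (z c) ∈ Z' := fun c => Nat.find_spec (hex (z c) (hz c))
  have hm2 : ∀ c j, j < m c → σ^[j] (z c) ∉ Z' := fun c j hj => Nat.find_min (hex (z c) (hz c)) hj
  let P : Fin M → ℕ → V := fun c j => σ^[j] (z c)
  have hP : ∀ c j, P c j = σ^[j] (z c) := fun _ _ => rfl
  have hfix : ∀ c j, j < m c → σ (P c j) ≠ P c j := by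
    intro c j hj h
    have h1 : ∀ k : ℕ, σ^[k] (P c j) = P c j := by
      intro k
      induction k with
      | zero => rfl
      | succ k ih => rw [Function.iterate_succ_apply', ih, h]
    have h2 := h1 (m c - j)
    rw [hP, ← Function.iterate_add_apply, Nat.sub_add_cancel hj.le] at h2
    apply hm2 c j hj
    rw [← h2]
    exact hm1 c
  have hinj0 : ∀ c c' j j', j ≤ j' → j' ≤ m c' → P c j = P c' j' → c = c' ∧ j = j' := by
    intro c c' j j' hjj hj' he
    obtain ⟨d, rfl⟩ := Nat.exists_eq_add_of_le hjj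
    have h1 : z c = σ^[d] (z c') := by
      rw [hP, hP, Function.iterate_add_apply] at he
      exact (σ.injective.iterate j) he
    rcases d with _ | d
    · have h2 : e c = e c' := Subtype.ext h1
      exact ⟨e.injective h2, rfl⟩
    · exfalso
      rw [Function.iterate_succ_apply'] at h1
      have h2 : σ.symm (z c) = σ^[d] (z c') := by
        rw [Equiv.symm_apply_eq]; exact h1
      apply hm2 c' d (by omega)
      rw [← h2]
      exact hpre _ (hz c)
  have hPS : IsPS r Finset.univ Z Z' m P := by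
    refine ⟨fun c => hz c, fun c => hm1 c, fun _ _ _ => Finset.mem_univ _, ?_, ?_⟩
    · intro c j hj
      have h := hσ (P c j)
      have e1 : σ (P c j) = P c (j + 1) := by
        rw [hP, hP, Function.iterate_succ_apply']
      rcases h with h | h
      · exact absurd h.1 (hm2 c j hj)
      · rcases h.2.2 with h3 | h3
        · exact absurd h3 (hfix c j hj)
        · rw [e1] at h3; exact h3
    · intro c c' j j' hj hj' he
      rcases le_total j j' with h | h
      · exact hinj0 c c' j j' h hj' he
      · obtain ⟨h1, h2⟩ := hinj0 c' c j' j h hj he.symm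
        exact ⟨h1.symm, h2.symm⟩
  refine ⟨m, P, hPS, ?_⟩
  have hc : ∑ c, m c = ((Finset.univ : Finset (Fin M)).sigma (fun c => Finset.range (m c))).card := by
    rw [Finset.card_sigma]
    simp
  rw [hc]
  apply Finset.card_le_card_of_injOn (fun s : (_ : Fin M) × ℕ => P s.1 s.2)
  · rintro ⟨c, j⟩ hs
    simp only [Finset.coe_sigma, Set.mem_sigma_iff, Finset.coe_univ, Set.mem_univ, true_and,
      Finset.coe_range, Set.mem_Iio] at hs
    simp only [Finset.coe_filter, Finset.mem_univ, true_and, Set.mem_setOf_eq]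
    exact ⟨hm2 c j hs, hfix c j hs⟩
  · rintro ⟨c, j⟩ hs ⟨c', j'⟩ hs' he
    simp only [Finset.coe_sigma, Set.mem_sigma_iff, Finset.coe_univ, Set.mem_univ, true_and,
      Finset.coe_range, Set.mem_Iio] at hs hs'
    obtain ⟨h1, h2⟩ := hPS.inj c c' j j' hs.le hs'.le he
    subst h1
    subst h2
    rfl

end Pool.Agent.Q96.PV
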