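import Pool.Agent.Q125.PV.Stm
import Mathlib

/-! Project PV, job POT. -/

set_option autoImplicit false

namespace Pool.Agent.Q96.PV

open Pool.Agent.Q125.PV

section Walk
variable {α : Type} (E : α → α → Prop) (w : α → α → ℤ)

/-- the weight of the first `n` steps -/
def wt (x : ℕ → α) (n : ℕ) : ℤ := ∑ i ∈ Finset.range n, w (x i) (x (i + 1))

/-- the spliced walk -/
def spl (x : ℕ → α) (i d : ℕ) : ℕ → α := fun k => if k < i then x k else x (k + d)

theorem spl_lt (x : ℕ → α) (i d k : ℕ) (h : k < i) : spl x i d k = x k := if_pos h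

theorem spl_ge (x : ℕ → α) (i d k : ℕ) (h : i ≤ k) : spl x i d k = x (k + d) := if_neg (by omega)

theorem spl_i (x : ℕ → α) (i d : ℕ) (h : x i = x (i + d)) (k : ℕ) (hk : k ≤ i) : spl x i d k = x k := by
  rcases Nat.lt_or_ge k i with h1 | h1
  · exact spl_lt x i d k h1
  · have : k = i := by omega
    subst this
    rw [spl_ge x k d k le_rfl, h]

theorem spl_edge (x : ℕ → α) (i d e : ℕ) (h : x i = x (i + d))
    (hE : ∀ k < i + d + e, E (x k) (x (k + 1))) (k : ℕ) (hk : k < i + e) :
    E (spl x i d k) (spl x i d (k + 1)) := by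
  rcases Nat.lt_or_ge k i with h1 | h1
  · rw [spl_i x i d h k (by omega), spl_i x i d h (k + 1) (by omega)]
    exact hE k (by omega)
  · rw [spl_ge x i d k h1, spl_ge x i d (k + 1) (by omega)]
    have := hE (k + d) (by omega)
    rw [show k + d + 1 = k + 1 + d by ring] at this
    exact this

theorem spl_wt (x : ℕ → α) (i d e : ℕ) (h : x i = x (i + d)) :
    wt w x (i + d + e) = wt w (spl x i d) (i + e) + wt w (fun k => x (i + k)) d := by
  unfold wt
  rw [Finset.sum_range_add, Finset.sum_range_add, Finset.sum_range_add]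
  have e1 : ∀ k ∈ Finset.range i, w (spl x i d k) (spl x i d (k + 1)) = w (x k) (x (k + 1)) := by
    intro k hk
    rw [Finset.mem_range] at hk
    rw [spl_i x i d h k (by omega), spl_i x i d h (k + 1) (by omega)]
  have e2 : ∀ k ∈ Finset.range e, w (spl x i d (i + k)) (spl x i d (i + k + 1)) =
      w (x (i + d + k)) (x (i + d + k + 1)) := by
    intro k _
    rw [spl_ge x i d (i + k) (by omega), spl_ge x i d (i + k + 1) (by omega)]
    rw [show i + k + d = i + d + k by ring, show i + k + 1 + d = i + d + k + 1 by ring]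
  rw [Finset.sum_congr rfl e1, Finset.sum_congr rfl e2]
  have e3 : ∀ k ∈ Finset.range d, w (x (i + k)) (x (i + k + 1)) =
      w ((fun k => x (i + k)) k) ((fun k => x (i + k)) (k + 1)) := by
    intro k _
    rfl
  rw [Finset.sum_congr rfl e3]
  ring

variable [Fintype α] [DecidableEq α]

/-- a cycle without repetitions -/
theorem cyc_simple (hE : ∀ u, E u u) (hw : ∀ u, w u u = 0)
    (hσ : ∀ σ : Equiv.Perm α, (∀ u, E u (σ u)) → 0 ≤ ∑ u, w u (σ u))
    (m : ℕ) (x : ℕ → α) (hx : x (m + 1) = x 0) (hxE : ∀ k < m + 1, E (x k) (x (k + 1)))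
    (hinj : ∀ i j, i < m + 1 → j < m + 1 → x i = x j → i = j) : 0 ≤ wt w x (m + 1) := by
  let f : Fin (m + 1) ↪ α := ⟨fun i => x i, fun i j h => Fin.ext (hinj i j i.2 j.2 h)⟩
  have hrot : ∀ i : Fin (m + 1), x ((finRotate (m + 1) i : Fin (m + 1)) : ℕ) = x ((i : ℕ) + 1) := by
    intro i
    rw [finRotate_succ_apply, Fin.val_add_one]
    split_ifs with h
    · rw [h, Fin.val_last]; exact hx.symm
    · rfl
  let σ : Equiv.Perm α := (finRotate (m + 1)).viaFintypeEmbedding f
  have h1 : ∀ i : Fin (m + 1), σ (x i) = x ((i : ℕ) + 1) := by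
    intro i
    have := Equiv.Perm.viaFintypeEmbedding_apply_image (finRotate (m + 1)) f i
    change (finRotate (m + 1)).viaFintypeEmbedding f (f i) = _
    rw [this]
    exact hrot i
  have h2 : ∀ u, u ∉ Set.range f → σ u = u := by
    intro u hu
    exact Equiv.Perm.viaFintypeEmbedding_apply_notMem_range _ _ hu
  have h3 : ∀ u, E u (σ u) := by
    intro u
    by_cases hu : u ∈ Set.range f
    · obtain ⟨i, rfl⟩ := hu
      change E (x i) (σ (x i))
      rw [h1]
      exact hxE i i.2
    · rw [h2 u hu]; exact hE u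
  have h4 := hσ σ h3
  have h5 : ∑ u, w u (σ u) = wt w x (m + 1) := by
    have e1 : ∑ u ∈ (Finset.univ : Finset (Fin (m + 1))).map f, w u (σ u) = ∑ u, w u (σ u) := by
      apply Finset.sum_subset (Finset.subset_univ _)
      intro u _ hu
      have hu' : u ∉ Set.range f := by
        rintro ⟨i, rfl⟩
        exact hu (Finset.mem_map_of_mem _ (Finset.mem_univ _))
      rw [h2 u hu', hw]
    rw [← e1, Finset.sum_map]
    unfold wt
    rw [Finset.sum_range]
    apply Finset.sum_congr rfl
    intro i _
    change w (x i) (σ (x i)) = _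
    rw [h1]
  rw [h5] at h4
  exact h4

/-- closed walks have nonnegative weight -/
theorem cyc (hE : ∀ u, E u u) (hw : ∀ u, w u u = 0)
    (hσ : ∀ σ : Equiv.Perm α, (∀ u, E u (σ u)) → 0 ≤ ∑ u, w u (σ u)) (n : ℕ) :
    ∀ x : ℕ → α, x n = x 0 → (∀ k < n, E (x k) (x (k + 1))) → 0 ≤ wt w x n := by
  induction n using Nat.strong_induction_on with
  | _ n ih =>
    intro x hx hxE
    rcases n with _ | m
    · simp [wt]
    by_cases hinj : ∀ i j, i < m + 1 → j < m + 1 → x i = x j → i = j
    · exact cyc_simple E w hE hw hσ m x hx hxE hinj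
    · push Not at hinj
      have hex : ∃ i d e, 1 ≤ d ∧ 1 ≤ e ∧ i + d + e = m + 1 ∧ x i = x (i + d) := by
        obtain ⟨i, j, hi, hj, hij, hne⟩ := hinj
        rcases Nat.lt_or_gt_of_ne hne with h | h
        · exact ⟨i, j - i, m + 1 - j, by omega, by omega, by omega, by
            rw [show i + (j - i) = j by omega]; exact hij⟩
        · exact ⟨j, i - j, m + 1 - i, by omega, by omega, by omega, by
            rw [show j + (i - j) = i by omega]; exact hij.symm⟩
      obtain ⟨i, d, e, hd, he, hsum, hxd⟩ := hex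
      rw [← hsum] at hx hxE ⊢
      rw [spl_wt w x i d e hxd]
      have a1 := ih (i + e) (by omega) (spl x i d) (by
        rw [spl_ge x i d (i + e) (by omega), spl_i x i d hxd 0 (by omega)]
        rw [show i + e + d = i + d + e by ring]
        exact hx) (spl_edge E x i d e hxd hxE)
      have a2 := ih d (by omega) (fun k => x (i + k)) hxd.symm (by
        intro k hk
        exact hxE (i + k) (by omega))
      omega

/-- walks have weight bounded below -/
theorem walk_bdd (hE : ∀ u, E u u) (hw : ∀ u, w u u = 0)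
    (hσ : ∀ σ : Equiv.Perm α, (∀ u, E u (σ u)) → 0 ≤ ∑ u, w u (σ u)) (n : ℕ) :
    ∀ x : ℕ → α, (∀ k < n, E (x k) (x (k + 1))) →
      -((Fintype.card α : ℤ) * ∑ u, ∑ v, |w u v|) ≤ wt w x n := by
  induction n using Nat.strong_induction_on with
  | _ n ih =>
    intro x hxE
    have hB : ∀ u v, -(∑ u, ∑ v, |w u v|) ≤ w u v := by
      intro u v
      have h1 : |w u v| ≤ ∑ v, |w u v| := Finset.single_le_sum (f := fun v => |w u v|)
        (fun v _ => abs_nonneg _) (Finset.mem_univ v)
      have h2 : ∑ v, |w u v| ≤ ∑ u, ∑ v, |w u v| := Finset.single_le_sum (f := fun u => ∑ v, |w u v|)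
        (fun u _ => Finset.sum_nonneg fun v _ => abs_nonneg _) (Finset.mem_univ u)
      have h3 := neg_abs_le (w u v)
      omega
    by_cases hn : n < Fintype.card α
    · have h1 : ∑ i ∈ Finset.range n, (-(∑ u, ∑ v, |w u v|)) ≤ wt w x n :=
        Finset.sum_le_sum fun i _ => hB _ _
      rw [Finset.sum_const, Finset.card_range, nsmul_eq_mul] at h1
      have h0 : 0 ≤ ∑ u, ∑ v, |w u v| :=
        Finset.sum_nonneg fun u _ => Finset.sum_nonneg fun v _ => abs_nonneg _
      have h2 : (n : ℤ) ≤ (Fintype.card α : ℤ) := by exact_mod_cast hn.le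
      nlinarith
    · have hex : ∃ i d e, 1 ≤ d ∧ i + d + e = n ∧ x i = x (i + d) := by
        have hcard : Fintype.card α < Fintype.card (Fin (n + 1)) := by
          rw [Fintype.card_fin]; omega
        obtain ⟨i, j, hne, hij⟩ := Fintype.exists_ne_map_eq_of_card_lt (fun i : Fin (n + 1) => x i) hcard
        have hne' : (i : ℕ) ≠ (j : ℕ) := fun h => hne (Fin.ext h)
        have hi := i.2
        have hj := j.2
        rcases Nat.lt_or_gt_of_ne hne' with h | h
        · exact ⟨i, j - i, n - j, by omega, by omega, by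
            rw [show (i : ℕ) + (j - i) = j by omega]; exact hij⟩
        · exact ⟨j, i - j, n - i, by omega, by omega, by
            rw [show (j : ℕ) + (i - j) = i by omega]; exact hij.symm⟩
      obtain ⟨i, d, e, hd, hsum, hxd⟩ := hex
      rw [← hsum] at hxE ⊢
      rw [spl_wt w x i d e hxd]
      have a1 := ih (i + e) (by omega) (spl x i d) (spl_edge E x i d e hxd hxE)
      have a2 := cyc E w hE hw hσ d (fun k => x (i + k)) hxd.symm (by
        intro k hk
        exact hxE (i + k) (by omega))
      omega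

end Walk

theorem t_POT : S_POT := by
  intro α _ _ E w hE hw hσ
  let T : α → Set ℤ := fun v => {s | ∃ (n : ℕ) (x : ℕ → α), x n = v ∧ (∀ k < n, E (x k) (x (k + 1))) ∧
    wt w x n = s}
  have hne : ∀ v, (T v).Nonempty := fun v => ⟨0, 0, fun _ => v, rfl, by omega, by simp [wt]⟩
  have hbd : ∀ v, BddBelow (T v) := by
    intro v
    refine ⟨-((Fintype.card α : ℤ) * ∑ u, ∑ v, |w u v|), ?_⟩
    rintro s ⟨n, x, _, hx, rfl⟩
    exact walk_bdd E w hE hw hσ n x hx
  refine ⟨fun v => sInf (T v), ?_⟩
  intro u v huv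
  obtain ⟨n, x, hxn, hxE, hxw⟩ := Int.csInf_mem (hne u) (hbd u)
  have hmem : sInf (T u) + w u v ∈ T v := by
    refine ⟨n + 1, fun k => if k ≤ n then x k else v, ?_, ?_, ?_⟩
    · simp
    · intro k hk
      rcases Nat.lt_or_ge k n with h | h
      · simp only [show k ≤ n by omega, show k + 1 ≤ n by omega, if_true]
        exact hxE k h
      · have : k = n := by omega
        subst this
        simp only [le_refl, if_true, show ¬ (k + 1 ≤ k) by omega, if_false]
        rw [hxn]; exact huv
    · unfold wt at *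
      rw [Finset.sum_range_succ]
      congr 1
      · rw [← hxw]
        apply Finset.sum_congr rfl
        intro k hk
        rw [Finset.mem_range] at hk
        simp only [show k ≤ n by omega, show k + 1 ≤ n by omega, if_true]
      · simp only [le_refl, if_true, show ¬ (n + 1 ≤ n) by omega, if_false]
        rw [hxn]
  exact csInf_le (hbd v) hmem

end Pool.Agent.Q96.PV
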